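import Pool.Agent.H280R3.MO.F

/-!
# MP_a187e6_nt: the decay of partial sums of completely multiplicative MO functions
-/

set_option autoImplicit false

namespace Pool.Agent.Results.MP_a187e6_nt.CompletelyMultiplicative

open Filter Topology Finset Asymptotics

/-- `f` (only its values at `n ≥ 1` matter) is an MO function: multiplicative, with
`∑ f(n)` convergent to `0`, and `∑_k f(p ^ k)` convergent to a nonzero value for every prime `p` -/
structure IsMO (f : ℕ → ℂ) : Prop where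
  one : f 1 = 1
  mul : ∀ m n : ℕ, 1 ≤ m → 1 ≤ n → Nat.Coprime m n → f (m * n) = f m * f n
  sum_zero : Tendsto (fun N : ℕ => ∑ n ∈ Icc 1 N, f n) atTop (𝓝 0)
  local_ne_zero : ∀ p : ℕ, p.Prime →
    ∃ L : ℂ, L ≠ 0 ∧ Tendsto (fun K : ℕ => ∑ k ∈ range K, f (p ^ k)) atTop (𝓝 L)

/-- `f` is completely multiplicative (on the positive integers) -/
def IsCM (f : ℕ → ℂ) : Prop :=
  f 1 = 1 ∧ ∀ m n : ℕ, 1 ≤ m → 1 ≤ n → f (m * n) = f m * f n

/-- the partial sum `S_f(x) = ∑_{n ≤ x} f(n)` -/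
noncomputable def partialSum (f : ℕ → ℂ) (x : ℝ) : ℂ := ∑ n ∈ Icc 1 ⌊x⌋₊, f n

/-- `S_f(x) = Ω(g(x))` in the Hardy–Littlewood sense: `S_f(x)` is not `o(g(x))` -/
def Omega (f : ℕ → ℂ) (g : ℝ → ℝ) : Prop := ¬ (fun x : ℝ => partialSum f x) =o[atTop] g

/-- For every completely multiplicative MO function `f`: `S_f(x) = Ω(x^(-1+δ))` for some `δ > 0`
(which may depend on `f`); and if for all but finitely many primes `p` either `|f(p)| ≤ 1/p` or
`f(p)` is a nonnegative real, then `S_f(x) = Ω(x^(-1/2))`. -/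
theorem result (f : ℕ → ℂ) (hf : IsMO f) (hcm : IsCM f) :
    (∃ δ : ℝ, 0 < δ ∧ Omega f (fun x => x ^ (-1 + δ))) ∧
    ({p : ℕ | p.Prime ∧ ¬ (‖f p‖ ≤ 1 / p ∨ ∃ r : ℝ, 0 ≤ r ∧ f p = r)}.Finite →
      Omega f (fun x => x ^ (-(1 / 2) : ℝ))) := by
  constructor
  · by_cases hall : ∀ p : ℕ, p.Prime → ‖f p‖ ≤ 1 / p
    · refine ⟨1 / 2, by norm_num, ?_⟩
      have e : (-1 + 1 / 2 : ℝ) = -(1 / 2) := by norm_num
      rw [e]
      refine Pool.Agent.H280R3.MO.classThm f hcm.1 hcm.2 ?_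
      convert Set.finite_empty
      rw [Set.eq_empty_iff_forall_notMem]
      rintro p ⟨hp, h⟩
      exact h (Or.inl (hall p hp))
    · push Not at hall
      obtain ⟨q, hq, hlt⟩ := hall
      exact Pool.Agent.H280R3.MO.bigPrime f hcm.1 hcm.2 hf.sum_zero q hq hlt
  · intro hfin
    exact Pool.Agent.H280R3.MO.classThm f hcm.1 hcm.2 hfin

end Pool.Agent.Results.MP_a187e6_nt.CompletelyMultiplicative
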