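import Pool.Agent.H932R4.MO.Final

/-!
# MP_a187e6_nt: MO functions whose partial sums vanish at almost all primes
-/

set_option autoImplicit false

namespace Pool.Agent.Results.MP_a187e6_nt.GreedyMO

open Filter Topology Finset

/-- `f` (only its values at `n ≥ 1` matter) is an MO function: multiplicative, with
`∑ f(n)` convergent to `0`, and `∑_k f(p ^ k)` convergent to a nonzero value for every prime `p` -/
structure IsMO (f : ℕ → ℂ) : Prop where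
  one : f 1 = 1
  mul : ∀ m n : ℕ, 1 ≤ m → 1 ≤ n → Nat.Coprime m n → f (m * n) = f m * f n
  sum_zero : Tendsto (fun N : ℕ => ∑ n ∈ Icc 1 N, f n) atTop (𝓝 0)
  local_ne_zero : ∀ p : ℕ, p.Prime →
    ∃ L : ℂ, L ≠ 0 ∧ Tendsto (fun K : ℕ => ∑ k ∈ range K, f (p ^ k)) atTop (𝓝 L)

/-- the partial sum `S_f(x) = ∑_{n ≤ x} f(n)` -/
noncomputable def partialSum (f : ℕ → ℂ) (x : ℝ) : ℂ := ∑ n ∈ Icc 1 ⌊x⌋₊, f n

/-- the prime `p` is good: `S_f(p) = 0`, and `|S_f(x)| ≤ x^(-1+ε)` for all real `x` from `p` up to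
the next prime -/
def Good (ε : ℝ) (f : ℕ → ℂ) (p : ℕ) : Prop :=
  partialSum f p = 0 ∧ ∀ x : ℝ, (p : ℝ) ≤ x → (∀ q : ℕ, q.Prime → p < q → x < q) →
    ‖partialSum f x‖ ≤ x ^ (-1 + ε)

/-- for some `c > 0` every interval `(X, X + Y]` with `X^θ ≤ Y ≤ X`, `X` large, contains at least
`c Y / log X` primes -/
def ShortIntervals (θ : ℝ) : Prop := ∃ c : ℝ, 0 < c ∧ ∃ X₀ : ℕ, 2 ≤ X₀ ∧
  ∀ X Y : ℕ, X₀ ≤ X → (X : ℝ) ^ θ ≤ Y → Y ≤ X →
    c * Y / Real.log X ≤ (((Ioc X (X + Y)).filter Nat.Prime).card : ℝ)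

open Classical in
/-- `ShortIntervals θ` holds for some `θ < 1`; and for every `θ` in `(0, 1)` for which it holds and
every `ε > 0` there is an MO function `f` with `|f(n)| ≤ n^(-1+ε)` for all `n ≥ 1`,
`|S_f(x)| ≤ x^(θ-1+ε)` for all large `x`, and such that for all large `X` all primes in `(X, 2X]`,
except for a proportion at most `ε`, are good (`S_f(p) = 0` and `|S_f(x)| ≤ x^(-1+ε)` up to the
next prime). -/
theorem result :
    (∃ θ : ℝ, 0 < θ ∧ θ < 1 ∧ ShortIntervals θ) ∧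
    ∀ θ : ℝ, 0 < θ → θ < 1 → ShortIntervals θ → ∀ ε : ℝ, 0 < ε → ∃ f : ℕ → ℂ, IsMO f ∧
      (∀ n : ℕ, 1 ≤ n → ‖f n‖ ≤ (n : ℝ) ^ (-1 + ε)) ∧
      (∃ x₀ : ℝ, ∀ x : ℝ, x₀ ≤ x → ‖partialSum f x‖ ≤ x ^ (θ - 1 + ε)) ∧
      (∃ X₀ : ℕ, ∀ X : ℕ, X₀ ≤ X →
        (((Ioc X (2 * X)).filter (fun p : ℕ => p.Prime ∧ ¬ Good ε f p)).card : ℝ) ≤
          ε * ((Ioc X (2 * X)).filter Nat.Prime).card) := by
  refine ⟨Pool.Agent.H932R4.MO.exists_short, fun θ hθ0 hθ1 hS ε hε => ?_⟩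
  obtain ⟨g, h0, h1, hmul, hpow, hbnd, hlt, htend, hx, X₀, hX⟩ :=
    Pool.Agent.H932R4.MO.final θ hθ0 hθ1 hS ε hε
  have hsum : ∀ n : ℕ, ∑ k ∈ Icc 1 n, ((g k : ℝ) : ℂ) = ((Pool.Agent.H932R4.MO.S g n : ℝ) : ℂ) :=
    fun n => Pool.Agent.H932R4.MO.psum_cast g h0 n
  have hps : ∀ x : ℝ, partialSum (fun n => ((g n : ℝ) : ℂ)) x =
      ((Pool.Agent.H932R4.MO.S g ⌊x⌋₊ : ℝ) : ℂ) := fun x => hsum _
  refine ⟨fun n => ((g n : ℝ) : ℂ), ⟨?_, ?_, ?_, ?_⟩, ?_, ?_, X₀, fun X hXX => ?_⟩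
  · show ((g 1 : ℝ) : ℂ) = 1
    rw [h1, Complex.ofReal_one]
  · intro m n _ _ hmn
    show ((g (m * n) : ℝ) : ℂ) = ((g m : ℝ) : ℂ) * ((g n : ℝ) : ℂ)
    rw [hmul m n hmn, Complex.ofReal_mul]
  · have h : Tendsto (fun N : ℕ => ((Pool.Agent.H932R4.MO.S g N : ℝ) : ℂ)) atTop (𝓝 ((0 : ℝ) : ℂ)) :=
      (Complex.continuous_ofReal.tendsto 0).comp htend
    rw [Complex.ofReal_zero] at h
    exact h.congr (fun N => (hsum N).symm)
  · exact fun p hp => Pool.Agent.H932R4.MO.local_tendsto g h1 hpow hlt p hp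
  · intro n hn
    show ‖((g n : ℝ) : ℂ)‖ ≤ _
    rw [Complex.norm_real]
    exact hbnd n hn
  · obtain ⟨x₀, hx₀⟩ := hx
    refine ⟨x₀, fun x hxx => ?_⟩
    rw [hps, Complex.norm_real]
    exact hx₀ x hxx
  · refine le_trans ?_ (hX X hXX)
    have hsub : (Ioc X (2 * X)).filter (fun p : ℕ => p.Prime ∧
        ¬ Good ε (fun n => ((g n : ℝ) : ℂ)) p) ⊆
        (Ioc X (2 * X)).filter (fun p : ℕ => p.Prime ∧ ¬ Pool.Agent.H932R4.MO.Good ε g p) := by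
      intro p hp
      rw [Finset.mem_filter] at hp ⊢
      refine ⟨hp.1, hp.2.1, fun hgood => hp.2.2 ?_⟩
      refine ⟨?_, fun x hpx hxq => ?_⟩
      · rw [hps, Nat.floor_natCast, hgood.1, Complex.ofReal_zero]
      · rw [hps, Complex.norm_real]
        exact hgood.2 x hpx hxq
    exact_mod_cast Finset.card_le_card hsub

end Pool.Agent.Results.MP_a187e6_nt.GreedyMO
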