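import Mathlib
import Pool.Agent.H232R3.MOEnd

set_option autoImplicit false

namespace Pool.Agent.Results.MP_a187e6_nt.LogOmega

/-- Let `f` be multiplicative with `‖f (p ^ k)‖ ≤ (C / p) ^ k`, with `Re f p ≥ -1 / p` and
`Re (f p ^ 2 - 2 f (p ^ 2)) ≤ (K + 1) / p ^ 2` up to summable errors, and with all local factors
zero-free in `Re s ≥ -1/2`. Then for every `A > (K + 2) / (K + 4)` the partial sums of `f`
are not `O (N ^ (-1/2) (log N) ^ (-A))`. -/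
theorem result :
    ∀ f : ℕ → ℂ,
      f 1 = 1 →
      (∀ m n : ℕ, 0 < m → 0 < n → Nat.Coprime m n → f (m * n) = f m * f n) →
      ∀ (C : ℝ) (K : ℕ),
        (∀ p k : ℕ, p.Prime → 1 ≤ k → ‖f (p ^ k)‖ ≤ (C / p) ^ k) →
        (Summable fun p : Nat.Primes => Real.sqrt p * max (-(1 / (p : ℝ)) - (f p).re) 0) →
        (Summable fun p : Nat.Primes =>
          (p : ℝ) * max ((f p ^ 2 - 2 * f ((p : ℕ) ^ 2)).re - (K + 1) / (p : ℝ) ^ 2) 0) →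
        (∀ p : ℕ, p.Prime → Summable fun k : ℕ => ‖f (p ^ k)‖ * Real.sqrt ((p : ℝ) ^ k)) →
        (∀ p : ℕ, p.Prime → ∀ s : ℂ, -(1/2) ≤ s.re →
          ∑' k : ℕ, f (p ^ k) * (p : ℂ) ^ (-((k : ℂ) * s)) ≠ 0) →
        ∀ A : ℝ, ((K : ℝ) + 2) / (K + 4) < A →
          ∀ (B : ℝ) (M : ℕ), ∃ N : ℕ, M ≤ N ∧ 1 < N ∧
            B * ((N : ℝ) ^ (-(1/2) : ℝ) * Real.log N ^ (-A)) ≤ ‖∑ n ∈ Finset.Icc 1 N, f n‖ :=
  fun f f1 hmul C K hC ha hb hL hc A hA B M =>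
    Pool.H232R3.mo_main f f1 hmul C K hC ha hb hL hc A hA B M

end Pool.Agent.Results.MP_a187e6_nt.LogOmega
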