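import Mathlib
import Pool.Agent.H304R3.MO4

/-!
# MP_a187e6_nt: every MO function has `limsup x |S_f(x)| ≥ 1/2`
-/

set_option autoImplicit false

namespace Pool.Agent.Results.MP_a187e6_nt.OmegaInverse

open Filter Topology Finset

/-- `f` (only its values at `n ≥ 1` matter) is an MO function: multiplicative, with
`∑ f(n)` convergent to `0`, and `∑_k f(p ^ k)` convergent to a nonzero value for every prime `p` -/
structure IsMO (f : ℕ → ℂ) : Prop where
  one : f 1 = 1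
  mul : ∀ m n : ℕ, 1 ≤ m → 1 ≤ n → Nat.Coprime m n → f (m * n) = f m * f n
  sum_zero : Tendsto (fun N : ℕ => ∑ n ∈ Icc 1 N, f n) atTop (𝓝 0)
  local_ne_zero : ∀ p : ℕ, p.Prime →
    ∃ L : ℂ, L ≠ 0 ∧ Tendsto (fun K : ℕ => ∑ k ∈ range K, f (p ^ k)) atTop (𝓝 L)

/-- the partial sum `S_f(x) = ∑_{n ≤ x} f(n)` -/
noncomputable def partialSum (f : ℕ → ℂ) (x : ℝ) : ℂ := ∑ n ∈ Icc 1 ⌊x⌋₊, f n

/-- the primes `p` with `p |S_f(p - 1)| > c` or `p |S_f(p)| > c` -/
def bigPrimes (f : ℕ → ℂ) (c : ℝ) : Set ℕ :=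
  {p | p.Prime ∧ (c < p * ‖partialSum f (p - 1)‖ ∨ c < p * ‖partialSum f p‖)}

theorem ps_nat (f : ℕ → ℂ) (n : ℕ) : partialSum f (n : ℝ) = ∑ k ∈ Icc 1 n, f k := by
  unfold partialSum
  rw [Nat.floor_natCast]

theorem ps_pred (f : ℕ → ℂ) (n : ℕ) (hn : 1 ≤ n) :
    partialSum f ((n : ℝ) - 1) = ∑ k ∈ Icc 1 (n - 1), f k := by
  have e : (n : ℝ) - 1 = ((n - 1 : ℕ) : ℝ) := by
    rw [Nat.cast_sub hn, Nat.cast_one]
  rw [e, ps_nat]

theorem second (f : ℕ → ℂ) (hf : IsMO f) (K : ℝ)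
    (hK : ∀ n : ℕ, 1 ≤ n → ‖∑ k ∈ Icc 1 n, f k‖ ≤ K / n) (c : ℝ) (hc : c < 1 / 2) :
    ¬ Summable (fun p : bigPrimes f c => (1 : ℝ) / (p : ℕ)) := by
  intro hsum
  set E : Set Nat.Primes := {p | (p : ℕ) ∈ bigPrimes f c} with hE
  have hEs : Summable (E.indicator (fun p : Nat.Primes => (1 : ℝ) / (p : ℕ))) := by
    have hj : Function.Injective
        (fun p : E => (⟨((p : Nat.Primes) : ℕ), p.2⟩ : bigPrimes f c)) := by
      intro a b hab
      have h1 := Subtype.ext_iff.1 hab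
      exact Subtype.ext (Subtype.ext h1)
    have h2 := hsum.comp_injective hj
    have h3 : Summable ((fun p : Nat.Primes => (1 : ℝ) / (p : ℕ)) ∘ (Subtype.val : E → Nat.Primes)) :=
      h2.congr fun p => rfl
    exact summable_subtype_iff_indicator.1 h3
  refine Pool.Agent.H304R3.MO.core f hf.one hf.mul K hK hf.local_ne_zero (max (2 * c) 0)
    (le_max_right _ _) (max_lt (by linarith) one_pos) E hEs ?_
  intro p hp
  have hp0 : (0 : ℝ) < (p : ℕ) := by exact_mod_cast p.2.pos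
  have h1 : ¬ (c < (p : ℕ) * ‖partialSum f ((p : ℕ) - 1)‖ ∨
      c < (p : ℕ) * ‖partialSum f (p : ℕ)‖) := fun h => hp ⟨p.2, h⟩
  push Not at h1
  obtain ⟨h2, h3⟩ := h1
  rw [ps_pred f p p.2.one_lt.le] at h2
  rw [ps_nat] at h3
  have h4 : f p = ∑ k ∈ Icc 1 (p : ℕ), f k - ∑ k ∈ Icc 1 ((p : ℕ) - 1), f k := by
    obtain ⟨m, hm⟩ : ∃ m, (p : ℕ) = m + 1 := ⟨(p : ℕ) - 1, by have := p.2.pos; omega⟩
    rw [hm, Finset.sum_Icc_succ_top (by omega)]
    simp
  rw [le_div_iff₀ hp0, h4]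
  calc ‖∑ k ∈ Icc 1 (p : ℕ), f k - ∑ k ∈ Icc 1 ((p : ℕ) - 1), f k‖ * (p : ℕ)
      ≤ (‖∑ k ∈ Icc 1 (p : ℕ), f k‖ + ‖∑ k ∈ Icc 1 ((p : ℕ) - 1), f k‖) * (p : ℕ) :=
        mul_le_mul_of_nonneg_right (norm_sub_le _ _) hp0.le
    _ ≤ 2 * c := by linarith
    _ ≤ _ := le_max_left _ _

/-- Let `f` be an MO function.  (1) `limsup_{x → ∞} x |S_f(x)| ≥ 1/2`: for every `c < 1/2` there
are arbitrarily large `x` with `|S_f(x)| > c / x`.  (2) If moreover `S_f(x) = O(1/x)`, then for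
every `c < 1/2` the primes `p` with `p |S_f(p - 1)| > c` or `p |S_f(p)| > c` have divergent
reciprocal sum. -/
theorem result (f : ℕ → ℂ) (hf : IsMO f) (c : ℝ) (hc : c < 1 / 2) :
    (∃ᶠ x : ℝ in atTop, c / x < ‖partialSum f x‖) ∧
    ((∃ K : ℝ, ∀ᶠ x : ℝ in atTop, ‖partialSum f x‖ ≤ K / x) →
      ¬ Summable (fun p : bigPrimes f c => (1 : ℝ) / (p : ℕ))) := by
  have hglobal : ∀ K : ℝ, (∀ᶠ x : ℝ in atTop, ‖partialSum f x‖ ≤ K / x) →
      ∃ K' : ℝ, ∀ n : ℕ, 1 ≤ n → ‖∑ k ∈ Icc 1 n, f k‖ ≤ K' / n := by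
    intro K h
    obtain ⟨x0, hx0⟩ := eventually_atTop.1 h
    obtain ⟨N, hN⟩ := exists_nat_ge x0
    refine ⟨|K| + ∑ m ∈ range (N + 1), (m : ℝ) * ‖∑ k ∈ Icc 1 m, f k‖, fun n hn => ?_⟩
    have hn0 : (0 : ℝ) < n := by exact_mod_cast hn
    have hnn : ∀ m ∈ range (N + 1), 0 ≤ (m : ℝ) * ‖∑ k ∈ Icc 1 m, f k‖ := fun m _ => by positivity
    rw [le_div_iff₀ hn0]
    rcases Nat.lt_or_ge N n with h1 | h1
    · have h2 := hx0 n (hN.trans (by exact_mod_cast h1.le))
      rw [ps_nat, le_div_iff₀ hn0] at h2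
      have h3 := Finset.sum_nonneg hnn
      have h4 := le_abs_self K
      linarith
    · have h2 := Finset.single_le_sum hnn (Finset.mem_range.2 (by omega : n < N + 1))
      have h3 := abs_nonneg K
      have h4 : ‖∑ k ∈ Icc 1 n, f k‖ * (n : ℝ) = (n : ℝ) * ‖∑ k ∈ Icc 1 n, f k‖ := mul_comm _ _
      linarith
  constructor
  · rw [Filter.frequently_iff_forall_eventually_exists_and]
    by_contra hcon
    have hev : ∀ᶠ x : ℝ in atTop, ‖partialSum f x‖ ≤ c / x := by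
      by_contra h
      apply hcon
      rw [← Filter.frequently_iff_forall_eventually_exists_and]
      intro h2
      exact h (h2.mono fun x hx => not_lt.1 hx)
    obtain ⟨K, hK⟩ := hglobal c hev
    obtain ⟨x0, hx0⟩ := eventually_atTop.1 hev
    have hc0 : 0 ≤ c := by
      have h1 := (norm_nonneg _).trans (hx0 (max x0 1) (le_max_left _ _))
      have h2 : (0 : ℝ) < max x0 1 := lt_of_lt_of_le one_pos (le_max_right _ _)
      rw [le_div_iff₀ h2, zero_mul] at h1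
      exact h1
    set c' : ℝ := (c + 1 / 2) / 2 with hc'
    have hcc : c < c' := by rw [hc']; linarith
    apply second f hf K hK c' (by rw [hc']; linarith)
    obtain ⟨N, hN⟩ := exists_nat_ge (max x0 (c' / (c' - c)))
    have hfin : (bigPrimes f c').Finite := by
      refine (Set.finite_Iio (N + 2)).subset ?_
      intro p hp
      rw [Set.mem_Iio]
      by_contra hpN
      push Not at hpN
      have hp1 : 1 ≤ p := by omega
      have hp0 : (0 : ℝ) < p := by exact_mod_cast hp1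
      have hpm : (N : ℝ) + 1 ≤ (p : ℝ) - 1 := by
        have : ((N + 2 : ℕ) : ℝ) ≤ p := by exact_mod_cast hpN
        push_cast at this
        linarith
      have hx : x0 ≤ (p : ℝ) - 1 := by
        have := (le_max_left x0 (c' / (c' - c))).trans hN
        linarith
      have hy : c' / (c' - c) ≤ (p : ℝ) - 1 := by
        have := (le_max_right x0 (c' / (c' - c))).trans hN
        linarith
      have hpm0 : (0 : ℝ) < (p : ℝ) - 1 := by
        have : (0 : ℝ) ≤ N := Nat.cast_nonneg _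
        linarith
      rw [div_le_iff₀ (by linarith)] at hy
      rcases hp.2 with h | h
      · have h1 := hx0 _ hx
        have h2 : (p : ℝ) * ‖partialSum f ((p : ℝ) - 1)‖ ≤ p * (c / ((p : ℝ) - 1)) :=
          mul_le_mul_of_nonneg_left h1 hp0.le
        have h3 : (p : ℝ) * (c / ((p : ℝ) - 1)) ≤ c' := by
          rw [mul_div_assoc', div_le_iff₀ hpm0]
          nlinarith
        linarith
      · have h1 := hx0 p (by linarith)
        rw [le_div_iff₀ hp0] at h1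
        have h4 : ‖partialSum f p‖ * (p : ℝ) = p * ‖partialSum f p‖ := mul_comm _ _
        linarith
    have : Finite (bigPrimes f c') := hfin
    exact Summable.of_finite
  · rintro ⟨K, hK⟩
    obtain ⟨K', hK'⟩ := hglobal K hK
    exact second f hf K' hK' c hc

end Pool.Agent.Results.MP_a187e6_nt.OmegaInverse
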